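import Pool.Agent.Q87.WR.Max

/-! Almost sure convergence almost everywhere. -/

set_option autoImplicit false

namespace Q87.WR

open MeasureTheory ProbabilityTheory Filter Set Topology Metric
open scoped ENNReal NNReal RealInnerProductSpace
open Pool.Agent.Q261.ST (ph)
open Q87.RA (An An_meas An_finite pc int_An int_ph En pc_add pc_self Noise)

variable {V : Type*} [NormedAddCommGroup V] [InnerProductSpace ℝ V] [FiniteDimensional ℝ V]
  [MeasurableSpace V] [BorelSpace V]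

/-- the part of `g` outside the ball of radius `N` -/
noncomputable def tl (g : V → ℂ) (N : ℝ) : V → ℂ := (An V 0 N)ᶜ.indicator g

lemma tl_memLp {g : V → ℂ} (hg : MemLp g 2 volume) (N : ℝ) : MemLp (tl g N) 2 volume :=
  hg.indicator (An_meas _ _).compl

lemma tl_E {g : V → ℂ} (hg : MemLp g 2 volume) (N : ℝ) : E (tl g N) = E g - m g N := by
  unfold E m
  rw [← integral_sub (sq_int hg) ((sq_int hg).indicator (An_meas _ _))]
  refine integral_congr_ae (Eventually.of_forall fun ξ => ?_)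
  beta_reduce
  unfold tl
  by_cases h : ξ ∈ An V 0 N
  · rw [indicator_of_mem h, indicator_of_notMem (by simpa using h)]
    simp
  · rw [indicator_of_notMem h, indicator_of_mem (by simpa using h)]
    simp

lemma tl_tendsto {g : V → ℂ} (hg : MemLp g 2 volume) :
    Tendsto (fun N : ℕ => ∫⁻ ξ, ‖tl g N ξ‖ₑ ^ 2) atTop (𝓝 0) := by
  have h1 : Tendsto (fun N : ℕ => ENNReal.ofReal (E g - m g N)) atTop
      (𝓝 (ENNReal.ofReal (E g - E g))) :=
    (ENNReal.continuous_ofReal.tendsto _).comp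
      (((m_tendsto hg).comp tendsto_natCast_atTop_atTop).const_sub _)
  rw [sub_self, ENNReal.ofReal_zero] at h1
  refine h1.congr fun N => ?_
  rw [E_eq (tl_memLp hg N), tl_E hg]

lemma pc_tl {Q : ℕ → Set V} {M : ℝ≥0∞} (h : Part Q M) (c : ℕ → ℂ) (hc : ∀ k, ‖c k‖ ≤ 1)
    {g : V → ℂ} (hg : MemLp g 2 volume) {N R : ℝ} (hN : 0 ≤ N) (hR : N ≤ R) (x : V) :
    pc (rq Q c (tl g N)) 0 R x = pc (rq Q c g) N R x := by
  rw [pc_add (rq_memLp h c hc (tl_memLp hg N)) x hN hR]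
  have h1 : pc (rq Q c (tl g N)) 0 N x = 0 := by
    unfold pc
    rw [setIntegral_congr_fun (g := fun _ => (0 : ℂ)) (An_meas _ _)]
    · simp
    · intro ξ hξ
      obtain ⟨k, hk⟩ := h.cover ξ
      beta_reduce
      rw [rq_eq h c _ hk]
      unfold tl
      rw [indicator_of_notMem (by simpa using hξ)]
      simp
  have h2 : pc (rq Q c (tl g N)) N R x = pc (rq Q c g) N R x := by
    unfold pc
    refine setIntegral_congr_fun (An_meas _ _) fun ξ hξ => ?_
    obtain ⟨k, hk⟩ := h.cover ξ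
    beta_reduce
    rw [rq_eq h c _ hk, rq_eq h c _ hk]
    unfold tl
    rw [indicator_of_mem]
    intro hcon
    exact absurd hcon.2 (not_lt.2 hξ.1)
  rw [h1, h2, zero_add]

lemma lt_of_rpow_lt {a b : ℝ≥0∞} {q : ℝ} (hq : 0 < q) (h : a ^ q < b ^ q) : a < b :=
  lt_of_not_ge fun hge => absurd h (not_lt.2 (ENNReal.rpow_le_rpow hge hq.le))

variable {Ω : Type*} [MeasurableSpace Ω]

/-- almost sure convergence almost everywhere -/
theorem conv_ae [Nontrivial V] (P : Measure Ω) [IsProbabilityMeasure P] {X : ℕ → Ω → ℂ}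
    (hX : Noise P X) {Q : ℕ → Set V} {M : ℝ≥0∞} (hM : M ≠ ⊤) (h : Part Q M) {g : V → ℂ}
    (hg : MemLp g 2 volume) :
    ∀ᵐ ω ∂P, ∀ᵐ x : V, ∃ z : ℂ,
      Tendsto (fun R => pc (rq Q (fun k => X k ω) g) 0 R x) atTop (𝓝 z) := by
  have hq : (2 : ℝ) < 4 := by norm_num
  have hmax := fun N : ℕ => max_ineq P hX h (tl_memLp hg (N : ℝ)) hq
  choose F hFm hFle hFint using hmax
  have hGm : Measurable fun p : Ω × V => ⨅ N, F N p := Measurable.iInf hFm
  have hconst : Cst 4 * M ^ ((4 : ℝ) / 2 - 1) ≠ ⊤ :=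
    ENNReal.mul_ne_top (Cst_ne_top hq) (ENNReal.rpow_ne_top_of_nonneg (by norm_num) hM)
  have hlim : Tendsto (fun N : ℕ => Cst 4 * M ^ ((4 : ℝ) / 2 - 1) *
      (∫⁻ ξ, ‖tl g (N : ℝ) ξ‖ₑ ^ 2) ^ ((4 : ℝ) / 2)) atTop (𝓝 0) := by
    have h1 : Tendsto (fun N : ℕ => (∫⁻ ξ, ‖tl g (N : ℝ) ξ‖ₑ ^ 2) ^ ((4 : ℝ) / 2)) atTop
        (𝓝 (0 ^ ((4 : ℝ) / 2))) :=
      (ENNReal.continuous_rpow_const.tendsto _).comp (tl_tendsto hg)
    rw [ENNReal.zero_rpow_of_pos (by norm_num)] at h1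
    have h2 := ENNReal.Tendsto.const_mul (a := Cst 4 * M ^ ((4 : ℝ) / 2 - 1)) h1 (Or.inr hconst)
    rw [mul_zero] at h2
    exact h2
  have h5 : ∫⁻ ω, ∫⁻ x : V, (⨅ N, F N (ω, x)) ∂volume ∂P = 0 := by
    refine le_antisymm (ge_of_tendsto' hlim fun N => ?_) zero_le
    refine le_trans ?_ (hFint N)
    exact lintegral_mono fun ω => lintegral_mono fun x => iInf_le _ N
  have h6m : Measurable fun ω : Ω => ∫⁻ x : V, (⨅ N, F N (ω, x)) := hGm.lintegral_prod_right'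
  have h7 : ∀ᵐ ω ∂P, ∫⁻ x : V, (⨅ N, F N (ω, x)) = 0 := (lintegral_eq_zero_iff h6m).1 h5
  filter_upwards [h7] with ω hω
  have h8m : Measurable fun x : V => ⨅ N, F N (ω, x) := hGm.comp measurable_prodMk_left
  have h8 : ∀ᵐ x : V, (⨅ N, F N (ω, x)) = 0 := (lintegral_eq_zero_iff h8m).1 hω
  filter_upwards [h8] with x hx
  apply cauchySeq_tendsto_of_complete
  rw [Metric.cauchySeq_iff']
  intro ε hε
  have h9 : (⨅ N, F N (ω, x)) < ENNReal.ofReal ε ^ (4 : ℝ) := by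
    rw [hx]
    have : ENNReal.ofReal ε ≠ 0 := by simpa using hε
    exact ENNReal.rpow_pos (pos_iff_ne_zero.2 this) ENNReal.ofReal_ne_top
  obtain ⟨N, hN⟩ := iInf_lt_iff.1 h9
  refine ⟨(N : ℝ), fun R hR => ?_⟩
  have hc : ∀ k, ‖(fun k => X k ω) k‖ ≤ 1 := fun k => hX.le k ω
  have h10 := (hFle N ω x R).trans_lt hN
  rw [pc_tl h (fun k => X k ω) hc hg (Nat.cast_nonneg N) hR x] at h10
  have h11 := lt_of_rpow_lt (by norm_num) h10
  rw [← ofReal_norm] at h11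
  rw [dist_eq_norm, pc_add (rq_memLp h (fun k => X k ω) hc hg) x (Nat.cast_nonneg N) hR,
    add_sub_cancel_left]
  exact (ENNReal.ofReal_lt_ofReal_iff hε).1 h11

end Q87.WR
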