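import Pool.Agent.Q87.WR.Khin
import Pool.Agent.Q87.RA.Chain
import Pool.Agent.Q89.MS.A12

/-! Deterministic estimates for the pieces of a partition of the frequency space. -/

set_option autoImplicit false

namespace Q87.WR

open MeasureTheory Filter Set Topology Metric
open scoped ENNReal NNReal RealInnerProductSpace FourierTransform
open Pool.Agent.Q261.ST (ph)
open Q87.RA (An An_meas An_finite pc int_An int_ph En)

variable {V : Type*} [NormedAddCommGroup V] [InnerProductSpace ℝ V] [FiniteDimensional ℝ V]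
  [MeasurableSpace V] [BorelSpace V]

/-- a partition into measurable sets of measure at most `M` -/
structure Part (Q : ℕ → Set V) (M : ℝ≥0∞) : Prop where
  meas : ∀ k, MeasurableSet (Q k)
  disj : ∀ j k, j ≠ k → Disjoint (Q j) (Q k)
  cover : ∀ ξ, ∃ k, ξ ∈ Q k
  vol : ∀ k, volume (Q k) ≤ M

/-- multiplication by `c k` on `Q k` -/
noncomputable def rq (Q : ℕ → Set V) (c : ℕ → ℂ) (g : V → ℂ) (ξ : V) : ℂ :=
  ∑' k, (Q k).indicator (fun ξ => c k * g ξ) ξ

lemma rq_eq {Q : ℕ → Set V} {M : ℝ≥0∞} (h : Part Q M) (c : ℕ → ℂ) (g : V → ℂ) {ξ : V} {k : ℕ}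
    (hk : ξ ∈ Q k) : rq Q c g ξ = c k * g ξ := by
  unfold rq
  rw [tsum_eq_single k, indicator_of_mem hk]
  intro j hj
  apply indicator_of_notMem
  intro hcon
  exact disjoint_left.1 (h.disj j k hj) hcon hk

lemma rq_norm_le {Q : ℕ → Set V} {M : ℝ≥0∞} (h : Part Q M) (c : ℕ → ℂ) (hc : ∀ k, ‖c k‖ ≤ 1)
    (g : V → ℂ) (ξ : V) : ‖rq Q c g ξ‖ ≤ ‖g ξ‖ := by
  obtain ⟨k, hk⟩ := h.cover ξ
  rw [rq_eq h c g hk, norm_mul]
  nlinarith [hc k, norm_nonneg (g ξ)]

lemma rq_aesm {Q : ℕ → Set V} {M : ℝ≥0∞} (h : Part Q M) (c : ℕ → ℂ) {g : V → ℂ} {μ : Measure V}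
    (hg : AEStronglyMeasurable g μ) : AEStronglyMeasurable (rq Q c g) μ := by
  have h1 : ∀ n : ℕ, AEStronglyMeasurable (fun ξ => ∑ k ∈ Finset.range n,
      (Q k).indicator (fun ξ => c k * g ξ) ξ) μ := by
    intro n
    apply Finset.aestronglyMeasurable_fun_sum
    intro k _
    exact (hg.const_mul (c k)).indicator (h.meas k)
  refine aestronglyMeasurable_of_tendsto_ae atTop h1 (Eventually.of_forall fun ξ => ?_)
  obtain ⟨k, hk⟩ := h.cover ξ
  apply tendsto_const_nhds.congr'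
  filter_upwards [eventually_gt_atTop k] with n hn
  rw [rq_eq h c g hk, Finset.sum_eq_single k]
  · rw [indicator_of_mem hk]
  · intro j _ hj
    apply indicator_of_notMem
    intro hcon
    exact disjoint_left.1 (h.disj j k hj) hcon hk
  · intro hcon
    exact absurd (Finset.mem_range.2 hn) hcon

lemma rq_memLp {Q : ℕ → Set V} {M : ℝ≥0∞} (h : Part Q M) (c : ℕ → ℂ) (hc : ∀ k, ‖c k‖ ≤ 1)
    {g : V → ℂ} (hg : MemLp g 2 volume) : MemLp (rq Q c g) 2 volume :=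
  hg.of_le (rq_aesm h c hg.aestronglyMeasurable) (Eventually.of_forall (rq_norm_le h c hc g))

/-- the pieces of the partial integrals -/
noncomputable def cf (Q : ℕ → Set V) (g : V → ℂ) (a b : ℝ) (x : V) (k : ℕ) : ℂ :=
  ∫ ξ in Q k ∩ An V a b, ph 0 x ξ * g ξ

lemma An_union {Q : ℕ → Set V} {M : ℝ≥0∞} (h : Part Q M) (a b : ℝ) :
    ⋃ k, (Q k ∩ An V a b) = An V a b := by
  ext ξ
  simp only [mem_iUnion, mem_inter_iff]
  constructor
  · rintro ⟨k, _, h2⟩
    exact h2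
  · intro h2
    obtain ⟨k, hk⟩ := h.cover ξ
    exact ⟨k, hk, h2⟩

lemma An_disj {Q : ℕ → Set V} {M : ℝ≥0∞} (h : Part Q M) (a b : ℝ) :
    Pairwise (Function.onFun Disjoint fun k => Q k ∩ An V a b) := by
  intro j k hjk
  exact (h.disj j k hjk).mono inter_subset_left inter_subset_left

lemma cf_norm_le {Q : ℕ → Set V} (g : V → ℂ) (a b : ℝ) (x : V) (k : ℕ) :
    ‖cf Q g a b x k‖ ≤ ∫ ξ in Q k ∩ An V a b, ‖g ξ‖ := by
  unfold cf
  refine (norm_integral_le_integral_norm _).trans (le_of_eq ?_)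
  refine integral_congr_ae (Eventually.of_forall fun ξ => ?_)
  beta_reduce
  rw [norm_mul, Pool.Agent.Q261.ST.norm_ph, one_mul]

lemma cf_summable {Q : ℕ → Set V} {M : ℝ≥0∞} (h : Part Q M) {g : V → ℂ} (hg : MemLp g 2 volume)
    (a b : ℝ) (x : V) : Summable fun k => ‖cf Q g a b x k‖ := by
  have h1 : HasSum (fun k => ∫ ξ in Q k ∩ An V a b, ‖g ξ‖) (∫ ξ in ⋃ k, (Q k ∩ An V a b), ‖g ξ‖) := by
    apply hasSum_integral_iUnion (fun k => (h.meas k).inter (An_meas _ _)) (An_disj h a b)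
    rw [An_union h]
    exact (int_An hg a b).norm
  exact Summable.of_nonneg_of_le (fun _ => norm_nonneg _) (cf_norm_le g a b x) h1.summable

lemma pc_rq {Q : ℕ → Set V} {M : ℝ≥0∞} (h : Part Q M) (c : ℕ → ℂ) (hc : ∀ k, ‖c k‖ ≤ 1)
    {g : V → ℂ} (hg : MemLp g 2 volume) (a b : ℝ) (x : V) :
    pc (rq Q c g) a b x = ∑' k, c k * cf Q g a b x k := by
  have h1 : HasSum (fun k => ∫ ξ in Q k ∩ An V a b, ph 0 x ξ * rq Q c g ξ)
      (∫ ξ in ⋃ k, (Q k ∩ An V a b), ph 0 x ξ * rq Q c g ξ) := by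
    apply hasSum_integral_iUnion (fun k => (h.meas k).inter (An_meas _ _)) (An_disj h a b)
    rw [An_union h]
    exact int_ph (int_An (rq_memLp h c hc hg) a b) x
  rw [An_union h] at h1
  unfold pc
  rw [← h1.tsum_eq]
  refine tsum_congr fun k => ?_
  unfold cf
  rw [← integral_const_mul]
  refine setIntegral_congr_fun ((h.meas k).inter (An_meas _ _)) fun ξ hξ => ?_
  beta_reduce
  rw [rq_eq h c g hξ.1]
  ring

lemma lint_sq (u : Lp ℂ 2 (volume : Measure V)) :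
    ∫⁻ x, ‖(u : V → ℂ) x‖ₑ ^ 2 = ENNReal.ofReal (‖u‖ ^ 2) := by
  have b1 := eLpNorm_nnreal_pow_eq_lintegral (f := (u : V → ℂ)) (μ := (volume : Measure V))
    (p := 2) (by norm_num)
  have c1 : (((2 : NNReal) : ℝ≥0∞)) = 2 := by norm_num
  rw [c1] at b1
  simp only [NNReal.coe_ofNat, ENNReal.rpow_ofNat] at b1
  rw [← b1, Lp.norm_def, ENNReal.ofReal_pow ENNReal.toReal_nonneg,
    ENNReal.ofReal_toReal (Lp.eLpNorm_ne_top u)]

/-- Plancherel's theorem for integrals over sets -/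
theorem planch {g : V → ℂ} (hg : MemLp g 2 volume) {S : Set V} (hS : MeasurableSet S)
    (hi : IntegrableOn g S) :
    ∫⁻ x : V, ‖∫ ξ in S, ph 0 x ξ * g ξ‖ₑ ^ 2 = ∫⁻ ξ in S, ‖g ξ‖ₑ ^ 2 := by
  have hgS : MemLp (S.indicator g) 2 volume := hg.indicator hS
  set h : Lp ℂ 2 (volume : Measure V) := hgS.toLp _ with hh
  have hint : Integrable (S.indicator g) := (integrable_indicator_iff hS).2 hi
  have hhi : Integrable (h : V → ℂ) := hint.congr hgS.coeFn_toLp.symm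
  have e1 : ∫⁻ x : V, ‖∫ ξ in S, ph 0 x ξ * g ξ‖ₑ ^ 2 =
      ∫⁻ x : V, ‖(𝓕⁻ h : Lp ℂ 2 (volume : Measure V)) x‖ₑ ^ 2 := by
    refine lintegral_congr_ae ?_
    filter_upwards [Q89.MS.fourierInv_ae h hhi] with x hx
    rw [hx, Real.fourierInv_congr_ae hgS.coeFn_toLp x, Real.fourierInv_eq']
    congr 2
    rw [← integral_indicator hS]
    refine integral_congr_ae (Eventually.of_forall fun ξ => ?_)
    simp only [Set.indicator]
    split_ifs
    · unfold ph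
      rw [smul_eq_mul, real_inner_comm]
      congr 3
      push_cast
      ring
    · simp
  have e2 := lint_sq (𝓕⁻ h : Lp ℂ 2 (volume : Measure V))
  have e3 := Q89.MS.sq_norm (𝓕⁻ h : Lp ℂ 2 (volume : Measure V))
  rw [FourierTransform.fourier_fourierInv_eq] at e3
  rw [e1, e2, ← e3, ← lintegral_indicator hS]
  refine lintegral_congr_ae ?_
  filter_upwards [hgS.coeFn_toLp] with ξ hξ
  rw [hξ]
  simp only [Set.indicator]
  split_ifs <;> simp

/-- the square function -/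
noncomputable def Sq (Q : ℕ → Set V) (g : V → ℂ) (a b : ℝ) (x : V) : ℝ≥0∞ :=
  ∑' k, ‖cf Q g a b x k‖ₑ ^ 2

lemma cf_sq_le {Q : ℕ → Set V} {M : ℝ≥0∞} (h : Part Q M) {g : V → ℂ} (hg : MemLp g 2 volume)
    (a b : ℝ) (x : V) (k : ℕ) :
    ‖cf Q g a b x k‖ₑ ^ 2 ≤ M * ∫⁻ ξ in Q k ∩ An V a b, ‖g ξ‖ₑ ^ 2 := by
  have h1 : ‖cf Q g a b x k‖ₑ ≤ ∫⁻ ξ in Q k ∩ An V a b, ‖g ξ‖ₑ := by
    unfold cf
    refine (enorm_integral_le_lintegral_enorm _).trans (le_of_eq ?_)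
    refine lintegral_congr fun ξ => ?_
    rw [enorm_mul, ← ofReal_norm, Pool.Agent.Q261.ST.norm_ph, ENNReal.ofReal_one, one_mul]
  calc ‖cf Q g a b x k‖ₑ ^ 2 ≤ (∫⁻ ξ in Q k ∩ An V a b, ‖g ξ‖ₑ) ^ 2 := by gcongr
    _ ≤ volume (Q k ∩ An V a b) * ∫⁻ ξ in Q k ∩ An V a b, ‖g ξ‖ₑ ^ 2 :=
      Q89.MS.cs_set _ _ hg.aestronglyMeasurable.enorm
    _ ≤ _ := mul_le_mul' ((measure_mono inter_subset_left).trans (h.vol k)) le_rfl

lemma En_split {Q : ℕ → Set V} {M : ℝ≥0∞} (h : Part Q M) (g : V → ℂ) (a b : ℝ) :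
    ∑' k, ∫⁻ ξ in Q k ∩ An V a b, ‖g ξ‖ₑ ^ 2 = En g a b := by
  unfold En
  rw [← lintegral_iUnion (fun k => (h.meas k).inter (An_meas _ _)) (An_disj h a b), An_union h]

lemma Sq_le {Q : ℕ → Set V} {M : ℝ≥0∞} (h : Part Q M) {g : V → ℂ} (hg : MemLp g 2 volume)
    (a b : ℝ) (x : V) : Sq Q g a b x ≤ M * En g a b := by
  unfold Sq
  rw [← En_split h g a b, ← ENNReal.tsum_mul_left]
  exact ENNReal.tsum_le_tsum fun k => cf_sq_le h hg a b x k

lemma cf_meas {Q : ℕ → Set V} {g : V → ℂ} (hg : MemLp g 2 volume) (a b : ℝ) (k : ℕ) :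
    Measurable fun x : V => cf Q g a b x k := by
  have hi : Integrable g (volume.restrict (Q k ∩ An V a b)) :=
    (int_An hg a b).mono_set inter_subset_right
  exact ((Pool.Agent.Q261.ST.continuous_c (volume.restrict (Q k ∩ An V a b)) g hi).comp
    (continuous_const.prodMk continuous_id : Continuous fun x : V => ((0 : ℝ), x))).measurable

lemma Sq_meas {Q : ℕ → Set V} {g : V → ℂ} (hg : MemLp g 2 volume) (a b : ℝ) :
    Measurable (Sq Q g a b) :=
  Measurable.tsum fun k => ((cf_meas hg a b k).enorm).pow_const 2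

lemma Sq_int {Q : ℕ → Set V} {M : ℝ≥0∞} (h : Part Q M) {g : V → ℂ} (hg : MemLp g 2 volume)
    (a b : ℝ) : ∫⁻ x : V, Sq Q g a b x = En g a b := by
  unfold Sq
  rw [lintegral_tsum fun k => (((cf_meas hg a b k).enorm).pow_const 2).aemeasurable,
    ← En_split h g a b]
  refine tsum_congr fun k => ?_
  exact planch hg ((h.meas k).inter (An_meas _ _)) ((int_An hg a b).mono_set inter_subset_right)

/-- higher powers of the square function -/
theorem Sq_pow {Q : ℕ → Set V} {M : ℝ≥0∞} (h : Part Q M) {g : V → ℂ} (hg : MemLp g 2 volume)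
    (a b : ℝ) {q : ℝ} (hq : 2 ≤ q) :
    ∫⁻ x : V, Sq Q g a b x ^ (q / 2) ≤ M ^ (q / 2 - 1) * En g a b ^ (q / 2) := by
  have hq0 : 0 ≤ q / 2 - 1 := by linarith
  have e1 : ∀ y : ℝ≥0∞, y ^ (q / 2) = y ^ (q / 2 - 1) * y := by
    intro y
    conv_rhs => rw [← ENNReal.rpow_one y]
    rw [ENNReal.rpow_one]
    have h1 := ENNReal.rpow_add_of_nonneg (x := y) (q / 2 - 1) 1 hq0 zero_le_one
    rw [ENNReal.rpow_one, sub_add_cancel] at h1
    exact h1
  calc ∫⁻ x : V, Sq Q g a b x ^ (q / 2)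
      = ∫⁻ x : V, Sq Q g a b x ^ (q / 2 - 1) * Sq Q g a b x := lintegral_congr fun x => e1 _
    _ ≤ ∫⁻ x : V, (M * En g a b) ^ (q / 2 - 1) * Sq Q g a b x := by
        refine lintegral_mono fun x => mul_le_mul' ?_ le_rfl
        exact ENNReal.rpow_le_rpow (Sq_le h hg a b x) hq0
    _ = (M * En g a b) ^ (q / 2 - 1) * En g a b := by
        rw [lintegral_const_mul _ (Sq_meas hg a b), Sq_int h hg]
    _ = _ := by
        rw [ENNReal.mul_rpow_of_nonneg _ _ hq0, mul_assoc, ← e1]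

end Q87.WR
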