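import Pool.Agent.Q87.RA.Rand

/-! Moments of weighted sums of independent bounded centred complex random variables. -/

set_option autoImplicit false

namespace Q87.WR

open MeasureTheory ProbabilityTheory Filter Set Topology
open scoped ENNReal NNReal
open Q87.RA (Noise)

variable {Ω : Type*} [MeasurableSpace Ω]

lemma sub_one (P : Measure Ω) [IsProbabilityMeasure P] {X : ℕ → Ω → ℂ} (hX : Noise P X)
    (c : ℂ) (k : ℕ) : HasSubgaussianMGF (fun ω => (X k ω * c).re) (‖c‖₊ ^ 2) P := by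
  have hm : Measurable fun ω => (X k ω * c).re :=
    Complex.measurable_re.comp ((hX.meas k).mul_const c)
  have hb : ∀ ω, (X k ω * c).re ∈ Set.Icc (-‖c‖) ‖c‖ := by
    intro ω
    have h1 : |(X k ω * c).re| ≤ ‖c‖ := by
      refine (Complex.abs_re_le_norm _).trans ?_
      rw [norm_mul]
      calc ‖X k ω‖ * ‖c‖ ≤ 1 * ‖c‖ := mul_le_mul_of_nonneg_right (hX.le k ω) (norm_nonneg _)
        _ = ‖c‖ := one_mul _
    exact ⟨(abs_le.1 h1).1, (abs_le.1 h1).2⟩
  have hi : Integrable (fun ω => X k ω * c) P := by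
    refine Integrable.of_bound (((hX.meas k).mul_const c).aestronglyMeasurable) ‖c‖
      (Eventually.of_forall fun ω => ?_)
    rw [norm_mul]
    calc ‖X k ω‖ * ‖c‖ ≤ 1 * ‖c‖ := mul_le_mul_of_nonneg_right (hX.le k ω) (norm_nonneg _)
      _ = ‖c‖ := one_mul _
  have h0 : ∫ ω, (X k ω * c).re ∂P = 0 := by
    have h1 : ∫ ω, X k ω * c ∂P = 0 := by
      rw [integral_mul_const, hX.mean k, zero_mul]
    have h2 := integral_re hi
    have h3 : ∫ ω, (X k ω * c).re ∂P = (∫ ω, X k ω * c ∂P).re := h2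
    rw [h3, h1]
    rfl
  have h := hasSubgaussianMGF_of_mem_Icc_of_integral_eq_zero (a := -‖c‖) (b := ‖c‖)
    hm.aemeasurable (Eventually.of_forall hb) h0
  have e : (‖‖c‖ - -‖c‖‖₊ / 2) ^ 2 = ‖c‖₊ ^ 2 := by
    congr 1
    ext
    push_cast
    rw [Real.norm_eq_abs, sub_neg_eq_add, abs_of_nonneg (by positivity)]
    ring
  rwa [e] at h

lemma sub_sum (P : Measure Ω) [IsProbabilityMeasure P] {X : ℕ → Ω → ℂ} (hX : Noise P X)
    (c : ℕ → ℂ) (N : ℕ) :
    HasSubgaussianMGF (fun ω => (∑ k ∈ Finset.range N, X k ω * c k).re)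
      (∑ k ∈ Finset.range N, ‖c k‖₊ ^ 2) P := by
  have hind : iIndepFun (fun k ω => (X k ω * c k).re) P :=
    hX.ind.comp (fun k z => (z * c k).re) fun k =>
      Complex.measurable_re.comp (measurable_id.mul_const (c k))
  have h := HasSubgaussianMGF.sum_of_iIndepFun hind (c := fun k => ‖c k‖₊ ^ 2)
    (s := Finset.range N) (fun k _ => sub_one P hX (c k) k)
  have e : (fun ω => (∑ k ∈ Finset.range N, X k ω * c k).re) =
      fun ω => ∑ k ∈ Finset.range N, (X k ω * c k).re := by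
    funext ω
    rw [Complex.re_sum]
  rw [e]
  exact h

lemma rpow_le_exp {x q : ℝ} (hx : 0 ≤ x) (hq : 0 < q) : x ^ q ≤ q ^ q * Real.exp x := by
  have h1 : x / q ≤ Real.exp (x / q) := (by linarith [Real.add_one_le_exp (x / q)])
  have h2 : (x / q) ^ q ≤ (Real.exp (x / q)) ^ q :=
    Real.rpow_le_rpow (by positivity) h1 hq.le
  rw [← Real.exp_mul, div_mul_cancel₀ _ hq.ne', Real.div_rpow hx hq.le] at h2
  rw [div_le_iff₀ (by positivity)] at h2
  linarith

/-- moments of a sub-Gaussian variable -/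
lemma moment (P : Measure Ω) [IsProbabilityMeasure P] {Y : Ω → ℝ} {v : ℝ≥0}
    (h : HasSubgaussianMGF Y v P) {q : ℝ} (hq : 0 < q) :
    ∫⁻ ω, ENNReal.ofReal (|Y ω| ^ q) ∂P ≤
      ENNReal.ofReal (q ^ q * (2 * Real.exp (1 / 2)) * (v : ℝ) ^ (q / 2)) := by
  rcases eq_or_ne v 0 with hv | hv
  · subst hv
    have h0 := h.ae_eq_zero_of_hasSubgaussianMGF_zero
    have h1 : ∫⁻ ω, ENNReal.ofReal (|Y ω| ^ q) ∂P = 0 := by
      rw [lintegral_congr_ae (g := fun _ => 0)]
      · simp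
      · filter_upwards [h0] with ω hω
        rw [hω]
        simp [Real.zero_rpow hq.ne']
    rw [h1]
    exact zero_le
  · have hv' : 0 < (v : ℝ) := by
      have : 0 < v := pos_iff_ne_zero.2 hv
      exact_mod_cast this
    set r : ℝ := Real.sqrt v with hr
    have hr0 : 0 < r := Real.sqrt_pos.2 hv'
    have hr2 : r ^ 2 = v := Real.sq_sqrt hv'.le
    have hvq : (v : ℝ) ^ (q / 2) = r ^ q := by
      rw [← hr2, ← Real.rpow_natCast, ← Real.rpow_mul hr0.le]
      congr 1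
      push_cast
      ring
    have hpt : ∀ ω, |Y ω| ^ q ≤ r ^ q * q ^ q *
        (Real.exp (r⁻¹ * Y ω) + Real.exp ((-r⁻¹) * Y ω)) := by
      intro ω
      have h1 := rpow_le_exp (x := |Y ω| / r) (by positivity) hq
      rw [Real.div_rpow (abs_nonneg _) hr0.le, div_le_iff₀ (by positivity)] at h1
      have h2 : Real.exp (|Y ω| / r) ≤ Real.exp (r⁻¹ * Y ω) + Real.exp ((-r⁻¹) * Y ω) := by
        rcases le_total 0 (Y ω) with h3 | h3
        · rw [abs_of_nonneg h3]
          have e : Y ω / r = r⁻¹ * Y ω := by rw [div_eq_inv_mul]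
          rw [e]
          linarith [Real.exp_pos ((-r⁻¹) * Y ω)]
        · rw [abs_of_nonpos h3]
          have e : -Y ω / r = (-r⁻¹) * Y ω := by rw [div_eq_inv_mul]; ring
          rw [e]
          linarith [Real.exp_pos (r⁻¹ * Y ω)]
      calc |Y ω| ^ q ≤ q ^ q * Real.exp (|Y ω| / r) * r ^ q := h1
        _ ≤ q ^ q * (Real.exp (r⁻¹ * Y ω) + Real.exp ((-r⁻¹) * Y ω)) * r ^ q := by gcongr
        _ = _ := by ring
    have hint : Integrable (fun ω => Real.exp (r⁻¹ * Y ω) + Real.exp ((-r⁻¹) * Y ω)) P :=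
      (h.integrable_exp_mul _).add (h.integrable_exp_mul _)
    have e1 : ∫ ω, (Real.exp (r⁻¹ * Y ω) + Real.exp ((-r⁻¹) * Y ω)) ∂P ≤
        2 * Real.exp (1 / 2) := by
      rw [integral_add (h.integrable_exp_mul _) (h.integrable_exp_mul _)]
      have m1 := h.mgf_le r⁻¹
      have m2 := h.mgf_le (-r⁻¹)
      unfold mgf at m1 m2
      have e2 : (v : ℝ) * r⁻¹ ^ 2 / 2 = 1 / 2 := by
        rw [← hr2]
        field_simp
      have e3 : (v : ℝ) * (-r⁻¹) ^ 2 / 2 = 1 / 2 := by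
        rw [neg_sq, e2]
      rw [e2] at m1
      rw [e3] at m2
      linarith
    calc ∫⁻ ω, ENNReal.ofReal (|Y ω| ^ q) ∂P
        ≤ ∫⁻ ω, ENNReal.ofReal (r ^ q * q ^ q *
            (Real.exp (r⁻¹ * Y ω) + Real.exp ((-r⁻¹) * Y ω))) ∂P :=
          lintegral_mono fun ω => ENNReal.ofReal_le_ofReal (hpt ω)
      _ = ENNReal.ofReal (∫ ω, r ^ q * q ^ q *
            (Real.exp (r⁻¹ * Y ω) + Real.exp ((-r⁻¹) * Y ω)) ∂P) := by
          rw [ofReal_integral_eq_lintegral_ofReal (hint.const_mul _)]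
          exact Eventually.of_forall fun ω => by positivity
      _ ≤ _ := by
          apply ENNReal.ofReal_le_ofReal
          rw [integral_const_mul, hvq]
          calc r ^ q * q ^ q * ∫ ω, (Real.exp (r⁻¹ * Y ω) + Real.exp ((-r⁻¹) * Y ω)) ∂P
              ≤ r ^ q * q ^ q * (2 * Real.exp (1 / 2)) := by gcongr
            _ = _ := by ring

/-- the constant in Khintchine's inequality -/
noncomputable def K (q : ℝ) : ℝ := 2 ^ q * (2 * (q ^ q * (2 * Real.exp (1 / 2))))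

lemma K_nonneg {q : ℝ} (hq : 0 < q) : 0 ≤ K q := by
  unfold K
  positivity

lemma norm_rpow_le (z : ℂ) {q : ℝ} (hq : 0 < q) :
    ‖z‖ ^ q ≤ 2 ^ q * (|z.re| ^ q + |z.im| ^ q) := by
  have h1 : ‖z‖ ≤ 2 * max |z.re| |z.im| := by
    refine (Complex.norm_le_abs_re_add_abs_im z).trans ?_
    linarith [le_max_left |z.re| |z.im|, le_max_right |z.re| |z.im|]
  have h0 : 0 ≤ max |z.re| |z.im| := (abs_nonneg _).trans (le_max_left _ _)
  calc ‖z‖ ^ q ≤ (2 * max |z.re| |z.im|) ^ q := Real.rpow_le_rpow (norm_nonneg _) h1 hq.le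
    _ = 2 ^ q * (max |z.re| |z.im|) ^ q := Real.mul_rpow (by norm_num) h0
    _ ≤ 2 ^ q * (|z.re| ^ q + |z.im| ^ q) := by
      refine mul_le_mul_of_nonneg_left ?_ (by positivity)
      rcases max_choice |z.re| |z.im| with h | h
      · rw [h]
        have : 0 ≤ |z.im| ^ q := Real.rpow_nonneg (abs_nonneg _) _
        linarith
      · rw [h]
        have : 0 ≤ |z.re| ^ q := Real.rpow_nonneg (abs_nonneg _) _
        linarith

/-- **Khintchine's inequality** for finite sums -/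
theorem khin (P : Measure Ω) [IsProbabilityMeasure P] {X : ℕ → Ω → ℂ} (hX : Noise P X)
    (c : ℕ → ℂ) (N : ℕ) {q : ℝ} (hq : 0 < q) :
    ∫⁻ ω, ‖∑ k ∈ Finset.range N, X k ω * c k‖ₑ ^ q ∂P ≤
      ENNReal.ofReal (K q) * (∑ k ∈ Finset.range N, ‖c k‖ₑ ^ 2) ^ (q / 2) := by
  set S : Ω → ℂ := fun ω => ∑ k ∈ Finset.range N, X k ω * c k with hS
  set v : ℝ≥0 := ∑ k ∈ Finset.range N, ‖c k‖₊ ^ 2 with hv
  have hre := moment P (sub_sum P hX c N) hq
  have him := moment P (sub_sum P hX (fun k => -Complex.I * c k) N) hq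
  have hvI : ∑ k ∈ Finset.range N, ‖-Complex.I * c k‖₊ ^ 2 = v := by
    rw [hv]
    refine Finset.sum_congr rfl fun k _ => ?_
    congr 1
    rw [nnnorm_mul, nnnorm_neg, Complex.nnnorm_I, one_mul]
  rw [hvI] at him
  have e1 : ∀ ω, (∑ k ∈ Finset.range N, X k ω * (-Complex.I * c k)).re = (S ω).im := by
    intro ω
    have : ∑ k ∈ Finset.range N, X k ω * (-Complex.I * c k) = -Complex.I * S ω := by
      rw [hS, Finset.mul_sum]
      refine Finset.sum_congr rfl fun k _ => ?_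
      ring
    rw [this]
    simp
  simp_rw [e1] at him
  have hSm : Measurable S := Finset.measurable_sum _ fun k _ => (hX.meas k).mul_const _
  have h1 : ∀ ω, ‖S ω‖ₑ ^ q ≤ ENNReal.ofReal (2 ^ q) *
      (ENNReal.ofReal (|(S ω).re| ^ q) + ENNReal.ofReal (|(S ω).im| ^ q)) := by
    intro ω
    rw [← ofReal_norm, ENNReal.ofReal_rpow_of_nonneg (norm_nonneg _) hq.le,
      ← ENNReal.ofReal_add (Real.rpow_nonneg (abs_nonneg _) _) (Real.rpow_nonneg (abs_nonneg _) _),
      ← ENNReal.ofReal_mul (by positivity)]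
    exact ENNReal.ofReal_le_ofReal (norm_rpow_le _ hq)
  calc ∫⁻ ω, ‖S ω‖ₑ ^ q ∂P
      ≤ ∫⁻ ω, ENNReal.ofReal (2 ^ q) *
      (ENNReal.ofReal (|(S ω).re| ^ q) + ENNReal.ofReal (|(S ω).im| ^ q)) ∂P :=
        lintegral_mono h1
    _ = ENNReal.ofReal (2 ^ q) * (∫⁻ ω, ENNReal.ofReal (|(S ω).re| ^ q) ∂P +
        ∫⁻ ω, ENNReal.ofReal (|(S ω).im| ^ q) ∂P) := by
        rw [lintegral_const_mul', lintegral_add_left]
        · exact ((Complex.measurable_re.comp hSm).norm.pow_const q).ennreal_ofReal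
        · exact ENNReal.ofReal_ne_top
    _ ≤ ENNReal.ofReal (2 ^ q) * (ENNReal.ofReal (q ^ q * (2 * Real.exp (1 / 2)) *
        (v : ℝ) ^ (q / 2)) + ENNReal.ofReal (q ^ q * (2 * Real.exp (1 / 2)) *
        (v : ℝ) ^ (q / 2))) := by
        gcongr
    _ = ENNReal.ofReal (K q * (v : ℝ) ^ (q / 2)) := by
        rw [← ENNReal.ofReal_add (by positivity) (by positivity),
          ← ENNReal.ofReal_mul (by positivity)]
        congr 1
        unfold K
        ring
    _ = _ := by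
        rw [ENNReal.ofReal_mul (K_nonneg hq), ← ENNReal.ofReal_rpow_of_nonneg (NNReal.coe_nonneg v) (by positivity)]
        congr 2
        rw [ENNReal.ofReal_coe_nnreal, hv]
        push_cast
        rfl

/-- **Khintchine's inequality** for absolutely convergent series -/
theorem khin_tsum (P : Measure Ω) [IsProbabilityMeasure P] {X : ℕ → Ω → ℂ} (hX : Noise P X)
    (c : ℕ → ℂ) (hc : Summable fun k => ‖c k‖) {q : ℝ} (hq : 0 < q) :
    ∫⁻ ω, ‖∑' k, X k ω * c k‖ₑ ^ q ∂P ≤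
      ENNReal.ofReal (K q) * (∑' k, ‖c k‖ₑ ^ 2) ^ (q / 2) := by
  have hlim : ∀ ω, Tendsto (fun N => ‖∑ k ∈ Finset.range N, X k ω * c k‖ₑ ^ q) atTop
      (𝓝 (‖∑' k, X k ω * c k‖ₑ ^ q)) := by
    intro ω
    have hs : Summable fun k => X k ω * c k := by
      refine Summable.of_norm_bounded hc fun k => ?_
      rw [norm_mul]
      calc ‖X k ω‖ * ‖c k‖ ≤ 1 * ‖c k‖ := mul_le_mul_of_nonneg_right (hX.le k ω) (norm_nonneg _)
        _ = ‖c k‖ := one_mul _
    exact (ENNReal.continuous_rpow_const.tendsto _).comp (hs.hasSum.tendsto_sum_nat.enorm)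
  calc ∫⁻ ω, ‖∑' k, X k ω * c k‖ₑ ^ q ∂P
      = ∫⁻ ω, liminf (fun N => ‖∑ k ∈ Finset.range N, X k ω * c k‖ₑ ^ q) atTop ∂P := by
        refine lintegral_congr fun ω => ?_
        exact (hlim ω).liminf_eq.symm
    _ ≤ liminf (fun N => ∫⁻ ω, ‖∑ k ∈ Finset.range N, X k ω * c k‖ₑ ^ q ∂P) atTop := by
        apply lintegral_liminf_le
        intro N
        exact ((Finset.measurable_sum _ fun k _ => (hX.meas k).mul_const _).enorm).pow_const q
    _ ≤ _ := by
        refine liminf_le_of_le (by isBoundedDefault) fun b hb => ?_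
        obtain ⟨N, hN⟩ := hb.exists
        refine hN.trans ((khin P hX c N hq).trans ?_)
        gcongr
        exact ENNReal.sum_le_tsum _

end Q87.WR
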