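import Pool.Agent.Q87.WR.Quant

/-! The maximal inequality for functions randomised on a partition of the frequency space. -/

set_option autoImplicit false

namespace Q87.WR

open MeasureTheory ProbabilityTheory Filter Set Topology Metric
open scoped ENNReal NNReal RealInnerProductSpace
open Pool.Agent.Q261.ST (ph)
open Q87.RA (An An_meas An_finite pc int_An int_ph En pc_add pc_self A A_zero A_double A_mono A_ge
  Noise)

variable {V : Type*} [NormedAddCommGroup V] [InnerProductSpace ℝ V] [FiniteDimensional ℝ V]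
  [MeasurableSpace V] [BorelSpace V]

variable {Ω : Type*} [MeasurableSpace Ω]

lemma pc_meas2 {P : Measure Ω} {X : ℕ → Ω → ℂ} (hX : Noise P X) {Q : ℕ → Set V}
    {M : ℝ≥0∞} (h : Part Q M) {g : V → ℂ} (hg : MemLp g 2 volume) (a b : ℝ) :
    Measurable fun p : Ω × V => pc (rq Q (fun k => X k p.1) g) a b p.2 := by
  have h1 : ∀ N : ℕ, Measurable fun p : Ω × V =>
      ∑ k ∈ Finset.range N, X k p.1 * cf Q g a b p.2 k := fun N =>
    Finset.measurable_sum _ fun k _ =>
      ((hX.meas k).comp measurable_fst).mul ((cf_meas hg a b k).comp measurable_snd)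
  refine measurable_of_tendsto_metrizable h1 ?_
  rw [tendsto_pi_nhds]
  intro p
  rw [pc_rq h (fun k => X k p.1) (fun k => hX.le k p.1) hg a b p.2]
  have hs : Summable fun k => X k p.1 * cf Q g a b p.2 k := by
    refine Summable.of_norm_bounded (cf_summable h hg a b p.2) fun k => ?_
    rw [norm_mul]
    calc ‖X k p.1‖ * ‖cf Q g a b p.2 k‖ ≤ 1 * ‖cf Q g a b p.2 k‖ :=
          mul_le_mul_of_nonneg_right (hX.le k p.1) (norm_nonneg _)
      _ = _ := one_mul _
  exact hs.hasSum.tendsto_sum_nat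

/-- the mean of one increment -/
lemma one_incr (P : Measure Ω) [IsProbabilityMeasure P] {X : ℕ → Ω → ℂ} (hX : Noise P X)
    {Q : ℕ → Set V} {M : ℝ≥0∞} (h : Part Q M) {g : V → ℂ} (hg : MemLp g 2 volume) (a b : ℝ)
    {q : ℝ} (hq : 2 ≤ q) :
    ∫⁻ x : V, ∫⁻ ω, ‖pc (rq Q (fun k => X k ω) g) a b x‖ₑ ^ q ∂P ≤
      ENNReal.ofReal (K q) * M ^ (q / 2 - 1) * En g a b ^ (q / 2) := by
  have hq0 : 0 < q := by linarith
  calc ∫⁻ x : V, ∫⁻ ω, ‖pc (rq Q (fun k => X k ω) g) a b x‖ₑ ^ q ∂P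
      ≤ ∫⁻ x : V, ENNReal.ofReal (K q) * Sq Q g a b x ^ (q / 2) := by
        refine lintegral_mono fun x => ?_
        have h1 := khin_tsum P hX (cf Q g a b x) (cf_summable h hg a b x) hq0
        refine le_trans (le_of_eq ?_) h1
        refine lintegral_congr fun ω => ?_
        rw [pc_rq h (fun k => X k ω) (fun k => hX.le k ω) hg a b x]
    _ = ENNReal.ofReal (K q) * ∫⁻ x : V, Sq Q g a b x ^ (q / 2) :=
        lintegral_const_mul _ ((Sq_meas hg a b).pow_const _)
    _ ≤ ENNReal.ofReal (K q) * (M ^ (q / 2 - 1) * En g a b ^ (q / 2)) :=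
        mul_le_mul' le_rfl (Sq_pow h hg a b hq)
    _ = _ := by ring

/-- the ratio of the levels -/
noncomputable def th (q : ℝ) : ℝ := 2 ^ (1 - q / 2)

lemma th_pos (q : ℝ) : 0 < th q := by
  unfold th
  positivity

lemma th_lt {q : ℝ} (hq : 2 < q) : th q < 1 := by
  unfold th
  exact Real.rpow_lt_one_of_one_lt_of_neg (by norm_num) (by linarith)

lemma level_const (q : ℝ) (j : ℕ) (hq : 2 ≤ q) :
    (2 : ℝ≥0∞) ^ j * ENNReal.ofReal (1 / 2 ^ j) ^ (q / 2) = ENNReal.ofReal (th q ^ j) := by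
  rw [ENNReal.ofReal_rpow_of_nonneg (by positivity) (by linarith)]
  have e : (2 : ℝ≥0∞) ^ j = ENNReal.ofReal (2 ^ j) := by
    rw [ENNReal.ofReal_pow (by norm_num)]
    norm_num
  rw [e, ← ENNReal.ofReal_mul (by positivity)]
  congr 1
  unfold th
  rw [← Real.rpow_natCast (2 ^ (1 - q / 2)), ← Real.rpow_mul (by norm_num), one_div,
    Real.inv_rpow (by positivity), ← Real.rpow_natCast 2 j, ← Real.rpow_mul (by norm_num),
    ← Real.rpow_neg (by norm_num), ← Real.rpow_add (by norm_num)]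
  congr 1
  ring

lemma lint_sum2 (P : Measure Ω) [IsProbabilityMeasure P] (F : ℕ → Ω × V → ℝ≥0∞)
    (hF : ∀ i, Measurable (F i)) (s : Finset ℕ) :
    ∫⁻ x : V, ∫⁻ ω, ∑ i ∈ s, F i (ω, x) ∂P = ∑ i ∈ s, ∫⁻ x : V, ∫⁻ ω, F i (ω, x) ∂P := by
  have h1 : ∀ i, Measurable fun x : V => ∫⁻ ω, F i (ω, x) ∂P := fun i =>
    (hF i).lintegral_prod_left'
  rw [← lintegral_finsetSum _ fun i _ => h1 i]
  refine lintegral_congr fun x => ?_
  exact lintegral_finsetSum _ fun i _ => (hF i).comp measurable_prodMk_right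

lemma lint_tsum2 (P : Measure Ω) [IsProbabilityMeasure P] (W : ℝ≥0∞) (c : ℕ → ℝ≥0∞)
    (F : ℕ → Ω × V → ℝ≥0∞) (hF : ∀ i, Measurable (F i)) :
    ∫⁻ ω, ∫⁻ x : V, W * ∑' j, c j * F j (ω, x) ∂volume ∂P =
      W * ∑' j, c j * ∫⁻ x : V, ∫⁻ ω, F j (ω, x) ∂P := by
  have hDm : ∀ j, Measurable fun p : Ω × V => c j * F j p := fun j => (hF j).const_mul _
  have hSm : Measurable fun p : Ω × V => ∑' j, c j * F j p := Measurable.tsum hDm
  have hm1 : ∀ j, Measurable fun x : V => ∫⁻ ω, F j (ω, x) ∂P := fun j =>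
    (hF j).lintegral_prod_left'
  have h0 : ∫⁻ ω, ∫⁻ x : V, W * ∑' j, c j * F j (ω, x) ∂volume ∂P =
      ∫⁻ x : V, ∫⁻ ω, W * ∑' j, c j * F j (ω, x) ∂P :=
    lintegral_lintegral_swap (f := fun ω x => W * ∑' j, c j * F j (ω, x))
      (hSm.const_mul W).aemeasurable
  rw [h0]
  have e1 : ∀ x : V, ∫⁻ ω, W * ∑' j, c j * F j (ω, x) ∂P =
      W * ∑' j, c j * ∫⁻ ω, F j (ω, x) ∂P := by
    intro x
    have h1 : Measurable fun ω : Ω => ∑' j, c j * F j (ω, x) := hSm.comp measurable_prodMk_right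
    rw [lintegral_const_mul W h1]
    congr 1
    have h3 : ∀ j, AEMeasurable (fun ω : Ω => c j * F j (ω, x)) P := fun j =>
      ((hDm j).comp measurable_prodMk_right).aemeasurable
    rw [lintegral_tsum h3]
    refine tsum_congr fun j => ?_
    exact lintegral_const_mul _ ((hF j).comp measurable_prodMk_right)
  simp_rw [e1]
  have h2 : Measurable fun x : V => ∑' j, c j * ∫⁻ ω, F j (ω, x) ∂P :=
    Measurable.tsum fun j => (hm1 j).const_mul _
  rw [lintegral_const_mul W h2]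
  congr 1
  rw [lintegral_tsum fun j => ((hm1 j).const_mul _).aemeasurable]
  refine tsum_congr fun j => ?_
  exact lintegral_const_mul _ (hm1 j)

/-- the mean of one level -/
theorem level (P : Measure Ω) [IsProbabilityMeasure P] {X : ℕ → Ω → ℂ} (hX : Noise P X)
    {Q : ℕ → Set V} {M : ℝ≥0∞} (h : Part Q M) {g : V → ℂ} (hg : MemLp g 2 volume)
    (hE : 0 < E g) {T : ℝ → ℝ} (hT : Quan g T) {q : ℝ} (hq : 2 ≤ q) (j : ℕ) :
    ∫⁻ x : V, ∫⁻ ω, D q T (rq Q (fun k => X k ω) g) j x ∂P ≤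
      ENNReal.ofReal (K q) * M ^ (q / 2 - 1) * ENNReal.ofReal (E g) ^ (q / 2) *
        ENNReal.ofReal (th q ^ j) := by
  have hm : ∀ i : ℕ, Measurable fun p : Ω × V =>
      ‖pc (rq Q (fun k => X k p.1) g) (T (A 0 1 j i)) (T (A 0 1 j (i + 1))) p.2‖ₑ ^ q := fun i =>
    ((pc_meas2 hX h hg _ _).enorm).pow_const q
  have hone : ∀ i ∈ Finset.range (2 ^ j - 1),
      ∫⁻ x : V, ∫⁻ ω, ‖pc (rq Q (fun k => X k ω) g) (T (A 0 1 j i))
        (T (A 0 1 j (i + 1))) x‖ₑ ^ q ∂P ≤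
      ENNReal.ofReal (K q) * M ^ (q / 2 - 1) * ENNReal.ofReal (E g) ^ (q / 2) *
        ENNReal.ofReal (1 / 2 ^ j) ^ (q / 2) := by
    intro i hi
    rw [Finset.mem_range] at hi
    have h1 := one_incr P hX h hg (T (A 0 1 j i)) (T (A 0 1 j (i + 1))) hq
    rw [hT.energy hg hE (A01_nonneg j i) (A_mono zero_le_one j (Nat.le_succ i))
      (A01_lt (by omega))] at h1
    refine h1.trans (le_of_eq ?_)
    have e : A 0 1 j (i + 1) - A 0 1 j i = 1 / 2 ^ j := by
      rw [A01, A01]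
      push_cast
      ring
    rw [e, mul_comm (1 / 2 ^ j : ℝ) (E g), ENNReal.ofReal_mul hE.le,
      ENNReal.mul_rpow_of_nonneg _ _ (by linarith)]
    ring
  have hsum := lint_sum2 P (fun i p =>
      ‖pc (rq Q (fun k => X k p.1) g) (T (A 0 1 j i)) (T (A 0 1 j (i + 1))) p.2‖ₑ ^ q) hm
      (Finset.range (2 ^ j - 1))
  beta_reduce at hsum
  calc ∫⁻ x : V, ∫⁻ ω, D q T (rq Q (fun k => X k ω) g) j x ∂P
      = ∑ i ∈ Finset.range (2 ^ j - 1),
        ∫⁻ x : V, ∫⁻ ω, ‖pc (rq Q (fun k => X k ω) g) (T (A 0 1 j i))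
          (T (A 0 1 j (i + 1))) x‖ₑ ^ q ∂P := by
        unfold D
        exact hsum
    _ ≤ ∑ _i ∈ Finset.range (2 ^ j - 1),
        ENNReal.ofReal (K q) * M ^ (q / 2 - 1) * ENNReal.ofReal (E g) ^ (q / 2) *
        ENNReal.ofReal (1 / 2 ^ j) ^ (q / 2) := Finset.sum_le_sum hone
    _ ≤ (2 : ℝ≥0∞) ^ j * (ENNReal.ofReal (K q) * M ^ (q / 2 - 1) * ENNReal.ofReal (E g) ^ (q / 2) *
        ENNReal.ofReal (1 / 2 ^ j) ^ (q / 2)) := by
        rw [Finset.sum_const, Finset.card_range, nsmul_eq_mul]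
        refine mul_le_mul' ?_ le_rfl
        have : ((2 ^ j - 1 : ℕ) : ℝ≥0∞) ≤ ((2 ^ j : ℕ) : ℝ≥0∞) := by
          exact_mod_cast Nat.sub_le _ _
        refine this.trans (le_of_eq ?_)
        push_cast
        rfl
    _ = _ := by
        rw [← level_const q j hq]
        ring

/-- Hölder's inequality for series with weights -/
lemma holder_tsum (a w w' : ℕ → ℝ≥0∞) (hw : ∀ j, w' j * w j = 1) {q q' : ℝ}
    (hqq : q.HolderConjugate q') :
    (∑' j, a j) ^ q ≤ (∑' j, w' j ^ q * a j ^ q) * (∑' j, w j ^ q') ^ (q / q') := by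
  have hq0 : 0 < q := hqq.pos
  have hmeas : ∀ f : ℕ → ℝ≥0∞, AEMeasurable f (Measure.count : Measure ℕ) := fun f =>
    (measurable_of_countable f).aemeasurable
  have h := ENNReal.lintegral_mul_le_Lp_mul_Lq (Measure.count : Measure ℕ) hqq
    (f := fun j => w' j * a j) (g := w) (hmeas _) (hmeas _)
  simp only [lintegral_count, Pi.mul_apply] at h
  have e1 : ∀ j, w' j * a j * w j = a j := by
    intro j
    calc w' j * a j * w j = w' j * w j * a j := by ring
      _ = a j := by rw [hw, one_mul]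
  simp_rw [e1, ENNReal.mul_rpow_of_nonneg _ _ hq0.le] at h
  calc (∑' j, a j) ^ q ≤ ((∑' j, w' j ^ q * a j ^ q) ^ (1 / q) *
        (∑' j, w j ^ q') ^ (1 / q')) ^ q := ENNReal.rpow_le_rpow h hq0.le
    _ = _ := by
        rw [ENNReal.mul_rpow_of_nonneg _ _ hq0.le, ← ENNReal.rpow_mul, ← ENNReal.rpow_mul,
          one_div_mul_cancel hq0.ne', ENNReal.rpow_one]
        congr 2
        ring

/-- the weights -/
noncomputable def al (q : ℝ) : ℝ := th q ^ (1 / (2 * q))

lemma al_pos (q : ℝ) : 0 < al q := Real.rpow_pos_of_pos (th_pos q) _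

lemma al_lt {q : ℝ} (hq : 2 < q) : al q < 1 :=
  Real.rpow_lt_one (th_pos q).le (th_lt hq) (by positivity)

/-- the constant -/
noncomputable def Cst (q : ℝ) : ℝ≥0∞ :=
  (∑' j : ℕ, (ENNReal.ofReal (al q) ^ j) ^ (Real.conjExponent q)) ^ (q / Real.conjExponent q) *
    (ENNReal.ofReal (K q) * ∑' j : ℕ, ENNReal.ofReal (th q ^ (1 / 2 : ℝ)) ^ j)

lemma geo_ne_top {r : ℝ≥0∞} (hr : r < 1) : ∑' j : ℕ, r ^ j ≠ ⊤ := by
  rw [ENNReal.tsum_geometric]
  simp only [ne_eq, ENNReal.inv_eq_top]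
  exact (tsub_pos_of_lt hr).ne'

lemma Cst_ne_top {q : ℝ} (hq : 2 < q) : Cst q ≠ ⊤ := by
  have hqq : q.HolderConjugate (Real.conjExponent q) :=
    Real.HolderConjugate.conjExponent (by linarith)
  unfold Cst
  apply ENNReal.mul_ne_top
  · apply ENNReal.rpow_ne_top_of_nonneg
    · exact div_nonneg (by linarith) hqq.symm.pos.le
    · have e : ∀ j : ℕ, (ENNReal.ofReal (al q) ^ j) ^ (Real.conjExponent q) =
          (ENNReal.ofReal (al q) ^ (Real.conjExponent q)) ^ j := by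
        intro j
        rw [← ENNReal.rpow_natCast, ← ENNReal.rpow_natCast, ← ENNReal.rpow_mul,
          ← ENNReal.rpow_mul, mul_comm]
      simp_rw [e]
      apply geo_ne_top
      apply ENNReal.rpow_lt_one _ hqq.symm.pos
      rw [ENNReal.ofReal_lt_one]
      exact al_lt hq
  · apply ENNReal.mul_ne_top ENNReal.ofReal_ne_top
    apply geo_ne_top
    rw [ENNReal.ofReal_lt_one]
    exact Real.rpow_lt_one (th_pos q).le (th_lt hq) (by norm_num)

lemma D_meas2 {P : Measure Ω} {X : ℕ → Ω → ℂ} (hX : Noise P X) {Q : ℕ → Set V}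
    {M : ℝ≥0∞} (h : Part Q M) {g : V → ℂ} (hg : MemLp g 2 volume) (q : ℝ) (T : ℝ → ℝ) (j : ℕ) :
    Measurable fun p : Ω × V => D q T (rq Q (fun k => X k p.1) g) j p.2 := by
  unfold D
  exact Finset.measurable_sum _ fun i _ => ((pc_meas2 hX h hg _ _).enorm).pow_const q

/-- pointwise bound of the majorant -/
lemma Maj_pow {q : ℝ} (hq : 2 < q) (T : ℝ → ℝ) (h : V → ℂ) (x : V) :
    Maj q T h x ^ q ≤ (∑' j : ℕ, (ENNReal.ofReal (al q) ^ j) ^ (Real.conjExponent q)) ^
        (q / Real.conjExponent q) *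
      ∑' j, ENNReal.ofReal ((th q ^ (-(1 / 2) : ℝ)) ^ j) * D q T h j x := by
  have hqq : q.HolderConjugate (Real.conjExponent q) :=
    Real.HolderConjugate.conjExponent (by linarith)
  have hq0 : 0 < q := by linarith
  have h1 := holder_tsum (fun j => D q T h j x ^ (1 / q))
    (fun j => ENNReal.ofReal (al q) ^ j) (fun j => ENNReal.ofReal (al q)⁻¹ ^ j) (by
      intro j
      rw [← mul_pow, ← ENNReal.ofReal_mul (by have := al_pos q; positivity),
        inv_mul_cancel₀ (al_pos q).ne', ENNReal.ofReal_one, one_pow]) hqq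
  unfold Maj
  refine h1.trans (le_of_eq ?_)
  rw [mul_comm]
  congr 1
  refine tsum_congr fun j => ?_
  congr 1
  · rw [← ENNReal.ofReal_pow (by have := al_pos q; positivity), ENNReal.ofReal_rpow_of_nonneg
      (by have := al_pos q; positivity) hq0.le]
    congr 1
    rw [← Real.rpow_natCast, ← Real.rpow_natCast, ← Real.rpow_mul (by have := al_pos q; positivity),
      mul_comm (j : ℝ) q, Real.rpow_mul (by have := al_pos q; positivity)]
    congr 1
    unfold al
    rw [← Real.rpow_neg (th_pos q).le, ← Real.rpow_mul (th_pos q).le]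
    congr 1
    field_simp
  · rw [← ENNReal.rpow_mul, one_div_mul_cancel hq0.ne', ENNReal.rpow_one]

/-- **the maximal inequality** -/
theorem max_ineq [Nontrivial V] (P : Measure Ω) [IsProbabilityMeasure P] {X : ℕ → Ω → ℂ}
    (hX : Noise P X) {Q : ℕ → Set V} {M : ℝ≥0∞} (h : Part Q M) {g : V → ℂ}
    (hg : MemLp g 2 volume) {q : ℝ} (hq : 2 < q) :
    ∃ F : Ω × V → ℝ≥0∞, Measurable F ∧
      (∀ ω x R, ‖pc (rq Q (fun k => X k ω) g) 0 R x‖ₑ ^ q ≤ F (ω, x)) ∧
      ∫⁻ ω, ∫⁻ x : V, F (ω, x) ∂volume ∂P ≤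
        Cst q * M ^ (q / 2 - 1) * (∫⁻ ξ, ‖g ξ‖ₑ ^ 2) ^ (q / 2) := by
  have hq0 : 0 < q := by linarith
  have hle : ∀ ω ξ, ‖rq Q (fun k => X k ω) g ξ‖ ≤ ‖g ξ‖ := fun ω ξ =>
    rq_norm_le h (fun k => X k ω) (fun k => hX.le k ω) g ξ
  have hmem : ∀ ω, MemLp (rq Q (fun k => X k ω) g) 2 volume := fun ω =>
    rq_memLp h (fun k => X k ω) (fun k => hX.le k ω) hg
  have hE0 : 0 ≤ E g := integral_nonneg fun ξ => by positivity
  rcases hE0.eq_or_lt with hE | hE
  · refine ⟨fun _ => 0, measurable_const, ?_, by simp⟩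
    intro ω x R
    have hz : pc (rq Q (fun k => X k ω) g) 0 R x = 0 := by
      rcases le_total R 0 with hR | hR
      · exact pc_self _ x hR
      · have h1 : m g R = 0 := le_antisymm ((m_le_E hg R).trans_eq hE.symm) (m_nonneg g R)
        have h2 := pc_same hg (hmem ω) (hle ω) le_rfl hR (by rw [m_zero g le_rfl, h1]) x
        rw [← h2, pc_self _ x le_rfl]
    rw [hz, enorm_zero, ENNReal.zero_rpow_of_pos hq0]
  · obtain ⟨T, hT⟩ := exists_quan hg hE
    set Wc : ℝ≥0∞ := (∑' j : ℕ, (ENNReal.ofReal (al q) ^ j) ^ (Real.conjExponent q)) ^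
        (q / Real.conjExponent q) with hWc
    refine ⟨fun p => Wc * ∑' j, ENNReal.ofReal ((th q ^ (-(1 / 2) : ℝ)) ^ j) *
      D q T (rq Q (fun k => X k p.1) g) j p.2, ?_, ?_, ?_⟩
    · exact (Measurable.tsum fun j => (D_meas2 hX h hg q T j).const_mul _).const_mul _
    · intro ω x R
      refine le_trans ?_ (Maj_pow hq T _ x)
      exact ENNReal.rpow_le_rpow (chain hg hE (hmem ω) (hle ω) hT hq0 R x) hq0.le
    · have hts := lint_tsum2 P Wc (fun j => ENNReal.ofReal ((th q ^ (-(1 / 2) : ℝ)) ^ j))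
        (fun j p => D q T (rq Q (fun k => X k p.1) g) j p.2) (D_meas2 hX h hg q T)
      beta_reduce at hts
      calc ∫⁻ ω, ∫⁻ x : V, Wc * ∑' j, ENNReal.ofReal ((th q ^ (-(1 / 2) : ℝ)) ^ j) *
            D q T (rq Q (fun k => X k ω) g) j x ∂volume ∂P
          = Wc * ∑' j, ENNReal.ofReal ((th q ^ (-(1 / 2) : ℝ)) ^ j) *
            ∫⁻ x : V, ∫⁻ ω, D q T (rq Q (fun k => X k ω) g) j x ∂P := hts
        _ ≤ Wc * ∑' j, ENNReal.ofReal ((th q ^ (-(1 / 2) : ℝ)) ^ j) *
            (ENNReal.ofReal (K q) * M ^ (q / 2 - 1) * ENNReal.ofReal (E g) ^ (q / 2) *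
              ENNReal.ofReal (th q ^ j)) := by
            gcongr with j
            exact level P hX h hg hE hT hq.le j
        _ = Cst q * M ^ (q / 2 - 1) * (∫⁻ ξ, ‖g ξ‖ₑ ^ 2) ^ (q / 2) := by
            rw [E_eq hg]
            have e2 : ∀ j : ℕ, ENNReal.ofReal ((th q ^ (-(1 / 2) : ℝ)) ^ j) *
                (ENNReal.ofReal (K q) * M ^ (q / 2 - 1) * ENNReal.ofReal (E g) ^ (q / 2) *
                  ENNReal.ofReal (th q ^ j)) =
                (ENNReal.ofReal (K q) * M ^ (q / 2 - 1) * ENNReal.ofReal (E g) ^ (q / 2)) *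
                  ENNReal.ofReal (th q ^ (1 / 2 : ℝ)) ^ j := by
              intro j
              have h0 := th_pos q
              have e3 : ENNReal.ofReal (th q ^ (1 / 2 : ℝ)) ^ j =
                  ENNReal.ofReal ((th q ^ (-(1 / 2) : ℝ)) ^ j) * ENNReal.ofReal (th q ^ j) := by
                rw [← ENNReal.ofReal_mul (by positivity), ← mul_pow,
                  ← ENNReal.ofReal_pow (by positivity)]
                congr 2
                calc th q ^ (1 / 2 : ℝ) = th q ^ (-(1 / 2) + 1 : ℝ) := by norm_num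
                  _ = _ := by rw [Real.rpow_add h0, Real.rpow_one]
              rw [e3]
              ring
            simp_rw [e2]
            rw [ENNReal.tsum_mul_left]
            unfold Cst
            rw [← hWc]
            ring

end Q87.WR
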