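import Pool.Agent.Q87.WR.Det

/-! Quantiles of the energy distribution over the radii, and chaining over them. -/

set_option autoImplicit false

namespace Q87.WR

open MeasureTheory Filter Set Topology Metric
open scoped ENNReal NNReal RealInnerProductSpace
open Pool.Agent.Q261.ST (ph)
open Q87.RA (An An_meas An_finite pc int_An int_ph En pc_add pc_self A A_zero A_double A_mono A_ge
  idx idx_succ idx_lt idx_zero A_idx_le A_idx_tendsto)

variable {V : Type*} [NormedAddCommGroup V] [InnerProductSpace ℝ V] [FiniteDimensional ℝ V]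
  [MeasurableSpace V] [BorelSpace V]

/-- the total energy -/
noncomputable def E (g : V → ℂ) : ℝ := ∫ ξ, ‖g ξ‖ ^ 2

/-- the energy below the radius `r` -/
noncomputable def m (g : V → ℂ) (r : ℝ) : ℝ := ∫ ξ, (An V 0 r).indicator (fun ξ => ‖g ξ‖ ^ 2) ξ

lemma sq_int {g : V → ℂ} (hg : MemLp g 2 volume) : Integrable fun ξ => ‖g ξ‖ ^ 2 :=
  (memLp_two_iff_integrable_sq_norm hg.aestronglyMeasurable).1 hg

lemma An_sub {a b a' b' : ℝ} (h1 : a' ≤ a) (h2 : b ≤ b') : An V a b ⊆ An V a' b' :=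
  fun _ h => ⟨h1.trans h.1, h.2.trans_le h2⟩

lemma m_mono {g : V → ℂ} (hg : MemLp g 2 volume) : Monotone (m g) := by
  intro a b hab
  unfold m
  apply integral_mono ((sq_int hg).indicator (An_meas _ _)) ((sq_int hg).indicator (An_meas _ _))
  intro ξ
  exact indicator_le_indicator_of_subset (An_sub le_rfl hab) (fun _ => by positivity) ξ

lemma m_nonneg (g : V → ℂ) (r : ℝ) : 0 ≤ m g r := by
  unfold m
  exact integral_nonneg fun ξ => indicator_nonneg (fun _ _ => by positivity) _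

lemma m_le_E {g : V → ℂ} (hg : MemLp g 2 volume) (r : ℝ) : m g r ≤ E g := by
  unfold m E
  apply integral_mono ((sq_int hg).indicator (An_meas _ _)) (sq_int hg)
  intro ξ
  exact indicator_le_self' (fun _ _ => by positivity) ξ

lemma m_zero (g : V → ℂ) {r : ℝ} (hr : r ≤ 0) : m g r = 0 := by
  unfold m
  have : An V 0 r = ∅ := by
    ext η
    simp only [An, mem_ofPred_eq, mem_empty_iff_false, iff_false, not_and, not_lt]
    intro h
    exact hr.trans h
  rw [this]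
  simp

lemma m_cont [Nontrivial V] {g : V → ℂ} (hg : MemLp g 2 volume) : Continuous (m g) := by
  rw [continuous_iff_continuousAt]
  intro r
  unfold m
  apply continuousAt_of_dominated (bound := fun ξ => ‖g ξ‖ ^ 2)
  · exact Eventually.of_forall fun s => ((sq_int hg).indicator (An_meas _ _)).aestronglyMeasurable
  · refine Eventually.of_forall fun s => Eventually.of_forall fun ξ => ?_
    rw [norm_indicator_eq_indicator_norm]
    refine (indicator_le_self' (fun _ _ => norm_nonneg _) ξ).trans ?_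
    rw [Real.norm_of_nonneg (by positivity)]
  · exact sq_int hg
  · have h0 : ∀ᵐ ξ : V, ξ ∉ sphere (0 : V) r := by
      rw [← measure_eq_zero_iff_ae_notMem]
      exact Measure.addHaar_sphere _ _ _
    filter_upwards [h0] with ξ hξ
    rw [mem_sphere_zero_iff_norm] at hξ
    rcases lt_or_gt_of_ne hξ with h | h
    · have h1 : ∀ᶠ s in 𝓝 r, ‖ξ‖ < s := lt_mem_nhds h
      apply ContinuousAt.congr (f := fun _ => ‖g ξ‖ ^ 2) continuousAt_const
      filter_upwards [h1] with s hs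
      rw [indicator_of_mem (show ξ ∈ An V 0 s from ⟨norm_nonneg _, hs⟩)]
    · have h1 : ∀ᶠ s in 𝓝 r, s < ‖ξ‖ := gt_mem_nhds h
      apply ContinuousAt.congr (f := fun _ => (0 : ℝ)) continuousAt_const
      filter_upwards [h1] with s hs
      rw [indicator_of_notMem fun hc : ξ ∈ An V 0 s => absurd hc.2 (not_lt.2 hs.le)]

lemma m_tendsto {g : V → ℂ} (hg : MemLp g 2 volume) : Tendsto (m g) atTop (𝓝 (E g)) := by
  unfold m E
  apply tendsto_integral_filter_of_dominated_convergence (fun ξ => ‖g ξ‖ ^ 2)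
  · exact Eventually.of_forall fun s => ((sq_int hg).indicator (An_meas _ _)).aestronglyMeasurable
  · refine Eventually.of_forall fun s => Eventually.of_forall fun ξ => ?_
    rw [norm_indicator_eq_indicator_norm]
    refine (indicator_le_self' (fun _ _ => norm_nonneg _) ξ).trans ?_
    rw [Real.norm_of_nonneg (by positivity)]
  · exact sq_int hg
  · refine Eventually.of_forall fun ξ => ?_
    apply tendsto_const_nhds.congr'
    filter_upwards [eventually_gt_atTop ‖ξ‖] with s hs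
    rw [indicator_of_mem (show ξ ∈ An V 0 s from ⟨norm_nonneg _, hs⟩)]

lemma En_eq {g : V → ℂ} (hg : MemLp g 2 volume) {a b : ℝ} (ha : 0 ≤ a) (hab : a ≤ b) :
    En g a b = ENNReal.ofReal (m g b - m g a) := by
  have h1 : m g b = m g a + ∫ ξ in An V a b, ‖g ξ‖ ^ 2 := by
    unfold m
    rw [integral_indicator (An_meas _ _), integral_indicator (An_meas _ _)]
    have h1 : An V 0 b = An V 0 a ∪ An V a b := by
      ext η
      simp only [An, mem_ofPred_eq, mem_union]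
      constructor
      · rintro ⟨h1, h2⟩
        rcases lt_or_ge ‖η‖ a with h | h
        · exact Or.inl ⟨h1, h⟩
        · exact Or.inr ⟨h, h2⟩
      · rintro (⟨h1, h2⟩ | ⟨h1, h2⟩)
        · exact ⟨h1, h2.trans_le hab⟩
        · exact ⟨ha.trans h1, h2⟩
    rw [h1, setIntegral_union _ (An_meas a b) (sq_int hg).integrableOn (sq_int hg).integrableOn]
    rw [disjoint_left]
    intro η h2 h3
    linarith [h2.2, h3.1]
  rw [h1, add_sub_cancel_left, ofReal_integral_eq_lintegral_ofReal (sq_int hg).integrableOn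
    (Eventually.of_forall fun _ => by positivity)]
  unfold En
  refine lintegral_congr fun ξ => ?_
  rw [← ofReal_norm, ENNReal.ofReal_pow (norm_nonneg _)]

lemma E_eq {g : V → ℂ} (hg : MemLp g 2 volume) : ∫⁻ ξ, ‖g ξ‖ₑ ^ 2 = ENNReal.ofReal (E g) := by
  unfold E
  rw [ofReal_integral_eq_lintegral_ofReal (sq_int hg) (Eventually.of_forall fun _ => by positivity)]
  refine lintegral_congr fun ξ => ?_
  rw [← ofReal_norm, ENNReal.ofReal_pow (norm_nonneg _)]

/-- quantiles of the energy distribution -/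
structure Quan (g : V → ℂ) (T : ℝ → ℝ) : Prop where
  nonneg : ∀ s, 0 ≤ s → s < 1 → 0 ≤ T s
  val : ∀ s, 0 ≤ s → s < 1 → m g (T s) = s * E g

lemma exists_quan [Nontrivial V] {g : V → ℂ} (hg : MemLp g 2 volume) (hE : 0 < E g) :
    ∃ T : ℝ → ℝ, Quan g T := by
  have h : ∀ s : ℝ, ∃ t : ℝ, 0 ≤ s → s < 1 → 0 ≤ t ∧ m g t = s * E g := by
    intro s
    by_cases h1 : 0 ≤ s ∧ s < 1
    · have h2 : s * E g < E g := by nlinarith [h1.2]
      obtain ⟨b, hb1, hb2⟩ := (((m_tendsto hg).eventually_const_lt h2).and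
        (eventually_ge_atTop 0)).exists
      have h3 := intermediate_value_Icc hb2 (m_cont hg).continuousOn
      have h4 : s * E g ∈ Icc (m g 0) (m g b) := by
        rw [m_zero g le_rfl]
        exact ⟨mul_nonneg h1.1 hE.le, hb1.le⟩
      obtain ⟨t, ht, ht2⟩ := h3 h4
      exact ⟨t, fun _ _ => ⟨ht.1, ht2⟩⟩
    · exact ⟨0, fun h2 h3 => absurd ⟨h2, h3⟩ h1⟩
  choose T hT using h
  exact ⟨T, fun s h1 h2 => (hT s h1 h2).1, fun s h1 h2 => (hT s h1 h2).2⟩

lemma lt_of_m_lt {g : V → ℂ} (hg : MemLp g 2 volume) {a b : ℝ} (h : m g a < m g b) : a < b := by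
  by_contra hcon
  exact absurd (m_mono hg (not_lt.1 hcon)) (not_le.2 h)

lemma Quan.mono {g : V → ℂ} (hg : MemLp g 2 volume) (hE : 0 < E g) {T : ℝ → ℝ} (h : Quan g T)
    {s s' : ℝ} (h0 : 0 ≤ s) (h1 : s ≤ s') (h2 : s' < 1) : T s ≤ T s' := by
  rcases h1.eq_or_lt with e | hlt
  · rw [e]
  · apply (lt_of_m_lt hg _).le
    rw [h.val s h0 (by linarith), h.val s' (by linarith) h2]
    exact mul_lt_mul_of_pos_right hlt hE

lemma Quan.energy {g : V → ℂ} (hg : MemLp g 2 volume) (hE : 0 < E g) {T : ℝ → ℝ} (h : Quan g T)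
    {s s' : ℝ} (h0 : 0 ≤ s) (h1 : s ≤ s') (h2 : s' < 1) :
    En g (T s) (T s') = ENNReal.ofReal ((s' - s) * E g) := by
  rw [En_eq hg (h.nonneg s h0 (by linarith)) (h.mono hg hE h0 h1 h2), h.val s h0 (by linarith),
    h.val s' (by linarith) h2]
  congr 1
  ring

/-- a partial integral is controlled by the energy -/
lemma pc_small {g h : V → ℂ} (hg : MemLp g 2 volume) (hh : MemLp h 2 volume)
    (hle : ∀ ξ, ‖h ξ‖ ≤ ‖g ξ‖) {a b : ℝ} (ha : 0 ≤ a) (hab : a ≤ b) (x : V) :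
    ‖pc h a b x‖ₑ ^ 2 ≤ volume (An V 0 b) * ENNReal.ofReal (m g b - m g a) := by
  have h1 : ‖pc h a b x‖ₑ ≤ ∫⁻ ξ in An V a b, ‖h ξ‖ₑ := by
    unfold pc
    refine (enorm_integral_le_lintegral_enorm _).trans (le_of_eq ?_)
    refine lintegral_congr fun ξ => ?_
    rw [enorm_mul, ← ofReal_norm, Pool.Agent.Q261.ST.norm_ph, ENNReal.ofReal_one, one_mul]
  calc ‖pc h a b x‖ₑ ^ 2 ≤ (∫⁻ ξ in An V a b, ‖h ξ‖ₑ) ^ 2 := by gcongr
    _ ≤ volume (An V a b) * ∫⁻ ξ in An V a b, ‖h ξ‖ₑ ^ 2 :=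
      Q89.MS.cs_set _ _ hh.aestronglyMeasurable.enorm
    _ ≤ volume (An V 0 b) * ∫⁻ ξ in An V a b, ‖g ξ‖ₑ ^ 2 := by
      refine mul_le_mul' (measure_mono (An_sub ha le_rfl)) (lintegral_mono fun ξ => ?_)
      have := enorm_le_iff_norm_le.2 (hle ξ)
      gcongr
    _ = _ := by rw [← En_eq hg ha hab]; rfl

lemma pc_same {g h : V → ℂ} (hg : MemLp g 2 volume) (hh : MemLp h 2 volume)
    (hle : ∀ ξ, ‖h ξ‖ ≤ ‖g ξ‖) {a b : ℝ} (ha : 0 ≤ a) (hab : a ≤ b) (hm : m g a = m g b) (x : V) :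
    pc h 0 a x = pc h 0 b x := by
  have h1 := pc_small hg hh hle ha hab x
  rw [hm, sub_self, ENNReal.ofReal_zero, mul_zero] at h1
  have h2 : pc h a b x = 0 := by
    have h3 : ‖pc h a b x‖ₑ ^ 2 = 0 := le_antisymm h1 zero_le
    have h4 := pow_eq_zero_iff (n := 2) (by norm_num) |>.1 h3
    simpa using h4
  rw [pc_add hh x ha hab, h2, add_zero]

lemma pc_lim {g h : V → ℂ} (hg : MemLp g 2 volume) (hh : MemLp h 2 volume)
    (hle : ∀ ξ, ‖h ξ‖ ≤ ‖g ξ‖) {R : ℝ} (u : ℕ → ℝ) (hu0 : ∀ n, 0 ≤ u n) (hu : ∀ n, u n ≤ R)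
    (hm : Tendsto (fun n => m g (u n)) atTop (𝓝 (m g R))) (x : V) :
    Tendsto (fun n => pc h 0 (u n) x) atTop (𝓝 (pc h 0 R x)) := by
  have h1 : Tendsto (fun n => volume (An V 0 R) * ENNReal.ofReal (m g R - m g (u n))) atTop
      (𝓝 (volume (An V 0 R) * ENNReal.ofReal (m g R - m g R))) := by
    apply ENNReal.Tendsto.const_mul
    · exact (ENNReal.continuous_ofReal.tendsto _).comp (hm.const_sub _)
    · exact Or.inr (An_finite 0 R).ne
  rw [sub_self, ENNReal.ofReal_zero, mul_zero] at h1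
  have h2 : Tendsto (fun n => ‖pc h (u n) R x‖ₑ ^ 2) atTop (𝓝 0) :=
    tendsto_of_tendsto_of_tendsto_of_le_of_le tendsto_const_nhds h1 (fun _ => zero_le)
      (fun n => pc_small hg hh hle (hu0 n) (hu n) x)
  have h3 : Tendsto (fun n => ‖pc h (u n) R x‖ₑ) atTop (𝓝 0) := by
    have h4 := (ENNReal.continuous_rpow_const (y := (1 / 2 : ℝ))).tendsto 0
    have h5 := h4.comp h2
    rw [ENNReal.zero_rpow_of_pos (by norm_num)] at h5
    refine h5.congr fun n => ?_
    simp only [Function.comp_apply]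
    rw [← ENNReal.rpow_natCast, ← ENNReal.rpow_mul]
    norm_num
  rw [tendsto_iff_enorm_sub_tendsto_zero]
  refine h3.congr fun n => ?_
  rw [pc_add hh x (hu0 n) (hu n), sub_add_cancel_left, enorm_neg]

/-- the increments at the dyadic level `j` -/
noncomputable def D (q : ℝ) (T : ℝ → ℝ) (h : V → ℂ) (j : ℕ) (x : V) : ℝ≥0∞ :=
  ∑ i ∈ Finset.range (2 ^ j - 1), ‖pc h (T (A 0 1 j i)) (T (A 0 1 j (i + 1))) x‖ₑ ^ q

lemma le_D {q : ℝ} (hq : 0 < q) (T : ℝ → ℝ) (h : V → ℂ) (j : ℕ) (x : V) {i : ℕ}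
    (hi : i + 1 < 2 ^ j) :
    ‖pc h (T (A 0 1 j i)) (T (A 0 1 j (i + 1))) x‖ₑ ≤ D q T h j x ^ (1 / q) := by
  have h1 : ‖pc h (T (A 0 1 j i)) (T (A 0 1 j (i + 1))) x‖ₑ ^ q ≤ D q T h j x := by
    unfold D
    exact Finset.single_le_sum (f := fun i =>
      ‖pc h (T (A 0 1 j i)) (T (A 0 1 j (i + 1))) x‖ₑ ^ q) (fun _ _ => zero_le)
      (Finset.mem_range.2 (by omega))
  calc ‖pc h (T (A 0 1 j i)) (T (A 0 1 j (i + 1))) x‖ₑ
      = (‖pc h (T (A 0 1 j i)) (T (A 0 1 j (i + 1))) x‖ₑ ^ q) ^ (1 / q) := by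
        rw [← ENNReal.rpow_mul, mul_one_div_cancel hq.ne', ENNReal.rpow_one]
    _ ≤ _ := ENNReal.rpow_le_rpow h1 (by positivity)

/-- the majorant -/
noncomputable def Maj (q : ℝ) (T : ℝ → ℝ) (h : V → ℂ) (x : V) : ℝ≥0∞ :=
  ∑' j, D q T h j x ^ (1 / q)

lemma A01 (j i : ℕ) : A 0 1 j i = i / 2 ^ j := by
  unfold A
  ring

lemma A01_nonneg (j i : ℕ) : 0 ≤ A 0 1 j i := by
  rw [A01]
  positivity

lemma A01_lt {j i : ℕ} (h : i < 2 ^ j) : A 0 1 j i < 1 := by
  rw [A01, div_lt_one (by positivity)]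
  exact_mod_cast h

lemma chain_fin {g h : V → ℂ} (hg : MemLp g 2 volume) (hE : 0 < E g) (hh : MemLp h 2 volume)
    (hle : ∀ ξ, ‖h ξ‖ ≤ ‖g ξ‖) {T : ℝ → ℝ} (hT : Quan g T) {q : ℝ} (hq : 0 < q) {s : ℝ}
    (h0 : 0 ≤ s) (h1 : s < 1) (x : V) (J : ℕ) :
    ‖pc h 0 (T (A 0 1 J (idx 0 1 J s))) x‖ₑ ≤
      ∑ j ∈ Finset.range J, D q T h (j + 1) x ^ (1 / q) := by
  induction J with
  | zero =>
    rw [idx_zero h0 h1, A_zero]
    have h2 : pc h 0 (T 0) x = 0 := by
      have h3 := pc_same hg hh hle le_rfl (hT.nonneg 0 le_rfl one_pos) (by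
        rw [hT.val 0 le_rfl one_pos, m_zero g le_rfl, zero_mul]) x
      rw [← h3, pc_self h x le_rfl]
    rw [h2, enorm_zero]
    exact zero_le
  | succ J ih =>
    rw [Finset.sum_range_succ]
    rcases idx_succ 0 1 J s with hs | hs
    · rw [hs, A_double]
      exact ih.trans le_self_add
    · have h4 := idx_lt (j := J) h0 h1
      have h5 : 2 * idx 0 1 J s + 1 < 2 ^ (J + 1) := by
        rw [pow_succ]
        omega
      have h6 : T (A 0 1 (J + 1) (2 * idx 0 1 J s)) ≤ T (A 0 1 (J + 1) (2 * idx 0 1 J s + 1)) :=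
        hT.mono hg hE (A01_nonneg _ _) (A_mono zero_le_one _ (Nat.le_succ _)) (A01_lt h5)
      rw [hs]
      have e : pc h 0 (T (A 0 1 (J + 1) (2 * idx 0 1 J s + 1))) x =
          pc h 0 (T (A 0 1 J (idx 0 1 J s))) x +
          pc h (T (A 0 1 (J + 1) (2 * idx 0 1 J s)))
            (T (A 0 1 (J + 1) (2 * idx 0 1 J s + 1))) x := by
        rw [← A_double 0 1 J (idx 0 1 J s)]
        exact pc_add hh x (hT.nonneg _ (A01_nonneg _ _) (A01_lt (by omega))) h6
      rw [e]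
      exact (enorm_add_le _ _).trans (add_le_add ih (le_D hq T h (J + 1) x h5))

lemma chain_quan {g h : V → ℂ} (hg : MemLp g 2 volume) (hE : 0 < E g) (hh : MemLp h 2 volume)
    (hle : ∀ ξ, ‖h ξ‖ ≤ ‖g ξ‖) {T : ℝ → ℝ} (hT : Quan g T) {q : ℝ} (hq : 0 < q) {s : ℝ}
    (h0 : 0 ≤ s) (h1 : s < 1) (x : V) : ‖pc h 0 (T s) x‖ₑ ≤ Maj q T h x := by
  have hA : ∀ J, A 0 1 J (idx 0 1 J s) ≤ s := fun J => A_idx_le h0 h1
  have h3 : Tendsto (fun J => ‖pc h 0 (T (A 0 1 J (idx 0 1 J s))) x‖ₑ) atTop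
      (𝓝 ‖pc h 0 (T s) x‖ₑ) := by
    apply Tendsto.enorm
    apply pc_lim hg hh hle
    · intro J
      exact hT.nonneg _ (A01_nonneg _ _) ((hA J).trans_lt h1)
    · intro J
      exact hT.mono hg hE (A01_nonneg _ _) (hA J) h1
    · rw [hT.val s h0 h1]
      have h4 := (A_idx_tendsto h0 h1).mul_const (E g)
      refine h4.congr fun J => ?_
      rw [hT.val _ (A01_nonneg _ _) ((hA J).trans_lt h1)]
  apply le_of_tendsto' h3
  intro J
  refine (chain_fin hg hE hh hle hT hq h0 h1 x J).trans ?_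
  unfold Maj
  calc ∑ j ∈ Finset.range J, D q T h (j + 1) x ^ (1 / q)
      ≤ ∑' j, D q T h (j + 1) x ^ (1 / q) := ENNReal.sum_le_tsum _
    _ ≤ ∑' j, D q T h j x ^ (1 / q) :=
      ENNReal.tsum_comp_le_tsum_of_injective (Nat.succ_injective) _

/-- the majorant dominates all partial integrals -/
theorem chain {g h : V → ℂ} (hg : MemLp g 2 volume) (hE : 0 < E g) (hh : MemLp h 2 volume)
    (hle : ∀ ξ, ‖h ξ‖ ≤ ‖g ξ‖) {T : ℝ → ℝ} (hT : Quan g T) {q : ℝ} (hq : 0 < q)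
    (R : ℝ) (x : V) : ‖pc h 0 R x‖ₑ ≤ Maj q T h x := by
  rcases le_total R 0 with hR | hR
  · rw [pc_self h x hR, enorm_zero]
    exact zero_le
  rcases (m_le_E hg R).lt_or_eq with hm | hm
  · set s : ℝ := m g R / E g with hs
    have h0 : 0 ≤ s := div_nonneg (m_nonneg g R) hE.le
    have h1 : s < 1 := by rwa [hs, div_lt_one hE]
    have h2 : m g (T s) = m g R := by
      rw [hT.val s h0 h1, hs, div_mul_cancel₀ _ hE.ne']
    have h3 : pc h 0 (T s) x = pc h 0 R x := by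
      rcases le_total (T s) R with h | h
      · exact pc_same hg hh hle (hT.nonneg s h0 h1) h h2 x
      · exact (pc_same hg hh hle hR h h2.symm x).symm
    rw [← h3]
    exact chain_quan hg hE hh hle hT hq h0 h1 x
  · have hs0 : ∀ n : ℕ, (0 : ℝ) ≤ 1 - 1 / ((n : ℝ) + 1) := by
      intro n
      have : 1 / ((n : ℝ) + 1) ≤ 1 := by
        rw [div_le_one (by positivity)]
        linarith [Nat.cast_nonneg (α := ℝ) n]
      linarith
    have hs1 : ∀ n : ℕ, (1 : ℝ) - 1 / ((n : ℝ) + 1) < 1 := by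
      intro n
      have : 0 < 1 / ((n : ℝ) + 1) := by positivity
      linarith
    have hlim : Tendsto (fun n : ℕ => ‖pc h 0 (T (1 - 1 / ((n : ℝ) + 1))) x‖ₑ) atTop
        (𝓝 ‖pc h 0 R x‖ₑ) := by
      apply Tendsto.enorm
      apply pc_lim hg hh hle
      · intro n
        exact hT.nonneg _ (hs0 n) (hs1 n)
      · intro n
        apply (lt_of_m_lt hg _).le
        rw [hT.val _ (hs0 n) (hs1 n), hm]
        nlinarith [hs1 n]
      · have h4 : Tendsto (fun n : ℕ => (1 - 1 / ((n : ℝ) + 1)) * E g) atTop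
            (𝓝 ((1 - 0) * E g)) :=
          (tendsto_one_div_add_atTop_nhds_zero_nat.const_sub 1).mul_const _
        rw [sub_zero, one_mul, ← hm] at h4
        refine h4.congr fun n => ?_
        rw [hT.val _ (hs0 n) (hs1 n), hm]
    exact le_of_tendsto' hlim fun n => chain_quan hg hE hh hle hT hq (hs0 n) (hs1 n) x

end Q87.WR
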